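import Pool.Agent.Run7.h929.G2.Tors

/-!
# The dichotomy of the strong conjecture of Lang and Silverman for the Jacobians of `d y² = f(x)`,
`f` a monic quintic with nearly squarefree discriminant, for all number fields and all twists
-/

set_option autoImplicit false

namespace Run7.h929.Old.Dichotomy

open Polynomial NumberField Filter Topology

/-- The affine coordinate ring `K[x, Y] / (Y² - g(x))` of the curve `Y² = g(x)`. -/
def CoordRing {K : Type} [Field K] (g : K[X]) : Type := QuadraticAlgebra K[X] g 0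

noncomputable instance {K : Type} [Field K] (g : K[X]) : CommRing (CoordRing g) :=
  QuadraticAlgebra.instCommRing

/-- The function on the curve given by a polynomial in `x`. -/
noncomputable def ofPoly {K : Type} [Field K] (g : K[X]) (u : K[X]) : CoordRing g :=
  (⟨u, 0⟩ : QuadraticAlgebra K[X] g 0)

/-- The function `Y` on the curve. -/
noncomputable def fnY {K : Type} [Field K] (g : K[X]) : CoordRing g :=
  (⟨0, 1⟩ : QuadraticAlgebra K[X] g 0)

/-- The ideal `(u, Y - V)` of the coordinate ring. -/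
noncomputable def divisor {K : Type} [Field K] (g : K[X]) (p : K[X] × K[X]) :
    Ideal (CoordRing g) :=
  Ideal.span {ofPoly g p.1, fnY g - ofPoly g p.2}

/-- Two ideals lie in the same ideal class. -/
def SameClass {B : Type} [CommRing B] (I J : Ideal B) : Prop :=
  ∃ x y : B, x ≠ 0 ∧ y ≠ 0 ∧ Ideal.span {x} * I = Ideal.span {y} * J

/-- The pairs `(u, V)` of Mumford, which are the `K`-rational points of the Jacobian of the curve
`Y² = g(x)`, if `g` has degree five and no multiple root. -/
structure IsPoint {K : Type} [Field K] (g : K[X]) (p : K[X] × K[X]) : Prop where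
  monic : p.1.Monic
  natDegree_le : p.1.natDegree ≤ 2
  degree_lt : p.2.degree < p.1.degree
  dvd : p.1 ∣ g - p.2 ^ 2

/-- The multiple `m p` of the point `p` is zero. -/
def Vanishes {K : Type} [Field K] (g : K[X]) (p : K[X] × K[X]) (m : ℕ) : Prop :=
  SameClass (divisor g p ^ m) ⊤

/-- `q` is the one pair of Mumford in the class of `m` times the point `p`. -/
structure IsMultiple {K : Type} [Field K] (g : K[X]) (p : K[X] × K[X]) (m : ℕ)
    (q : K[X] × K[X]) : Prop where
  point : IsPoint g q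
  same : SameClass (divisor g q) (divisor g p ^ m)
  unique : ∀ q', IsPoint g q' → SameClass (divisor g q') (divisor g p ^ m) → q' = q

/-- The fourth coordinate on the Kummer surface, for a pair of degree two. -/
noncomputable def fourth {K : Type} [Field K] (g : K[X]) (d : K) (s q V₁ : K) : K :=
  (V₁ ^ 2 - g.coeff 2 - g.coeff 3 * s - g.coeff 4 * s ^ 2) / d - s * (s ^ 2 - q)

/-- The coordinates on the Kummer surface in `ℙ³` (the sections of `2Θ`) of a point of the
Jacobian of `Y² = g(x)`, where `d` is the leading coefficient of `g`. -/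
noncomputable def kummer {K : Type} [Field K] (g : K[X]) (d : K) (p : K[X] × K[X]) : Fin 4 → K :=
  if p.1.natDegree = 2 then
    ![1, -p.1.coeff 1, p.1.coeff 0, fourth g d (-p.1.coeff 1) (p.1.coeff 0) (p.2.coeff 1)]
  else if p.1.natDegree = 1 then ![0, 1, -p.1.coeff 0, p.1.coeff 0 ^ 2]
  else ![0, 0, 0, 1]

/-- `h` is the canonical height of the point `p`, the limit of `4⁻ⁿ h(κ(2ⁿ p))`. -/
def IsCanonicalHeight {K : Type} [Field K] [NumberField K] (g : K[X]) (d : K) (p : K[X] × K[X])
    (h : ℝ) : Prop :=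
  ∃ P : ℕ → K[X] × K[X], (∀ n, IsMultiple g p (2 ^ n) (P n)) ∧
    Tendsto (fun n => Height.logHeight (kummer g d (P n)) / 4 ^ n) atTop (𝓝 h)

/-- The right hand side of `Y² = d f(x)`; with `Y = d y` this is the curve `d y² = f(x)`. -/
noncomputable def curve {K : Type} [Field K] (f : (𝓞 K)[X]) (d : K) : K[X] :=
  C d * f.map (algebraMap (𝓞 K) K)

/-- The hypotheses on the quintic `f`, the twist `d`, the sizes `H` of the coefficients at the
infinite places, the exceptional places `S` and the places `T` at which the twist is ramified. -/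
structure Data {K : Type} [Field K] [NumberField K] (f : (𝓞 K)[X]) (d : K)
    (H : InfinitePlace K → ℝ) (S T : Finset (FinitePlace K)) : Prop where
  monic : f.Monic
  natDegree : f.natDegree = 5
  discr_ne : f.discr ≠ 0
  twist_ne : d ≠ 0
  one_le : ∀ v, 1 ≤ H v
  coeff_le : ∀ v : InfinitePlace K, ∀ i < 5, v (f.coeff i : K) ≤ H v ^ (5 - i)
  outside : ∀ v ∉ S, v (2 : K) = 1 ∧ f.discr ∉ v.maximalIdeal.asIdeal ^ 2 ∧
    ((∃ z : K, v d = v z ^ 2) ∨ v ((f.discr : 𝓞 K) : K) = 1)
  odd : ∀ v ∈ T, v (2 : K) = 1 ∧ v ((f.discr : 𝓞 K) : K) = 1 ∧ ∀ z : K, v d ≠ v z ^ 2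

/-- The lower bound, in terms of the sizes `H`, the places `T` and the discriminant `D` at the
exceptional places `S` and at the infinite places. -/
noncomputable def bound (N A : ℝ) {K : Type} [Field K] [NumberField K] (D : 𝓞 K)
    (H : InfinitePlace K → ℝ) (S T : Finset (FinitePlace K)) : ℝ :=
  2 * ∑ v : InfinitePlace K, v.mult * Real.log (H v) +
    ∑ v ∈ T, Real.log (Ideal.absNorm v.maximalIdeal.asIdeal) -
    N * (∑ v ∈ S, -Real.log (v (2 * (D : K))) +
      ∑ v : InfinitePlace K, v.mult * (20 * Real.log (H v) - Real.log (v (D : K)))) -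
    A * Module.finrank ℚ K

/-- For every rational point `p` of the Jacobian of every quadratic twist of `y² = f(x)`: either
`2 p = 0` or the canonical height of `p` is at least a quarter of the bound; and if the bound is
positive, every torsion point has `2 p = 0`. -/
theorem result : ∃ N A : ℝ, ∀ (K : Type) [Field K] [NumberField K] (f : (𝓞 K)[X]) (d : K)
    (H : InfinitePlace K → ℝ) (S T : Finset (FinitePlace K)), Data f d H S T →
    ∀ p : K[X] × K[X], IsPoint (curve f d) p →
      (Vanishes (curve f d) p 2 ∨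
        ∃ h, IsCanonicalHeight (curve f d) d p h ∧ bound N A f.discr H S T / 4 ≤ h) ∧
      (0 < bound N A f.discr H S T → ∀ m : ℕ, 1 ≤ m → Vanishes (curve f d) p m →
        Vanishes (curve f d) p 2) := by
  refine ⟨Run7.h929.G2.NN / 3, Real.log Run7.h929.G2.CC / 3, ?_⟩
  intro K _ _ f d H S T hD p hp
  obtain ⟨hf, h5, hdisc, hd, hH, hHf, hS, hT⟩ := hD
  obtain ⟨hq, hdis⟩ := Run7.h929.G2.quin_cf (K := K) hf h5
  have hrhs : Run7.h929.G2.rhs (Run7.h929.G2.cf f) d = curve f d := by
    rw [Run7.h929.G2.rhs, hq, curve]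
  have hcf : ∀ i : Fin 5, (curve f d).coeff i = d * Run7.h929.G2.cf (K := K) f i := by
    intro i
    rw [curve, coeff_C_mul, coeff_map]
    rfl
  have hy : Run7.h929.G2.Hyp (Run7.h929.G2.cf f) d H S T := by
    refine ⟨hH, fun v i => Run7.h929.G2.fin_int v _, fun v i => hHf v i i.2, ?_, hd, ?_, ?_⟩
    · rw [hdis]
      exact fun h0 => hdisc (RingOfIntegers.ext h0)
    · intro v hv
      obtain ⟨g1, g2, g3⟩ := hS v hv
      refine ⟨g1, ?_, ?_⟩
      · rw [hdis]
        exact Run7.h929.G2.fin_sq v _ hdisc g2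
      · rw [hdis]
        exact g3
    · intro v hv
      obtain ⟨g1, g2, g3⟩ := hT v hv
      exact ⟨g1, by rw [hdis]; exact g2, g3⟩
  have hpt : ∀ p : K[X] × K[X], IsPoint (curve f d) p ↔
      Run7.h929.G2.Mum (Run7.h929.G2.rhs (Run7.h929.G2.cf f) d) p.1 p.2 := by
    intro p
    rw [hrhs]
    exact ⟨fun h => ⟨h.1, h.2, h.3, h.4⟩, fun h => ⟨h.1, h.2, h.3, h.4⟩⟩
  have hlb : Run7.h929.G2.lowb K (Run7.h929.G2.cf f) H S T =
      bound (Run7.h929.G2.NN / 3) (Real.log Run7.h929.G2.CC / 3) f.discr H S T := by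
    rw [Run7.h929.G2.lowb, Run7.h929.G2.defect, hdis]
    rfl
  have hzero : p.2 = 0 → Vanishes (curve f d) p 2 := by
    intro hV
    by_contra h2p
    refine Run7.h929.G2.two_torsion hd hy.dis_ne ((hpt p).1 hp) ?_ hV
    rw [hrhs]
    exact h2p
  have hmain : p.2 ≠ 0 → ∃ h, IsCanonicalHeight (curve f d) d p h ∧
      bound (Run7.h929.G2.NN / 3) (Real.log Run7.h929.G2.CC / 3) f.discr H S T / 4 ≤ h := by
    intro hV
    obtain ⟨P, c, -, hPM, hPS, hu, hc, hlow⟩ := Run7.h929.G2.main_seq hy ((hpt p).1 hp) hV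
    rw [hrhs] at hPM hPS hu
    have hk : ∀ n, Run7.h929.G2.kc (Run7.h929.G2.cf f) d (P n).1 (P n).2 =
        kummer (curve f d) d (P n) := by
      intro n
      have e2 : (curve f d).coeff 2 = d * Run7.h929.G2.cf (K := K) f 2 := hcf 2
      have e3 : (curve f d).coeff 3 = d * Run7.h929.G2.cf (K := K) f 3 := hcf 3
      have e4 : (curve f d).coeff 4 = d * Run7.h929.G2.cf (K := K) f 4 := hcf 4
      rw [kummer, fourth, Run7.h929.G2.kc, Run7.h929.G2.gg, e2, e3, e4]
      have : ∀ s q V : K, V ^ 2 / d - (Run7.h929.G2.cf f 2 + Run7.h929.G2.cf f 3 * s +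
          Run7.h929.G2.cf f 4 * s ^ 2 + s * (s ^ 2 - q)) =
          (V ^ 2 - d * Run7.h929.G2.cf f 2 - d * Run7.h929.G2.cf f 3 * s -
            d * Run7.h929.G2.cf f 4 * s ^ 2) / d - s * (s ^ 2 - q) := by
        intro s q V
        field_simp
        ring
      rw [this]
    refine ⟨c, ⟨P, fun n => ⟨⟨(hPM n).1, (hPM n).2, (hPM n).3, (hPM n).4⟩, hPS n, ?_⟩, ?_⟩, ?_⟩
    · intro p' hp' hs'
      exact (hu n p'.1 p'.2 ⟨hp'.1, hp'.2, hp'.3, hp'.4⟩ hs').symm
    · simp only [hk] at hc
      exact hc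
    · rw [hlb] at hlow
      exact hlow
  refine ⟨?_, ?_⟩
  · by_cases hV : p.2 = 0
    · exact Or.inl (hzero hV)
    · exact Or.inr (hmain hV)
  · intro hL m hm ht
    apply hzero
    rw [← hlb] at hL
    refine Run7.h929.G2.tors_bound hy hL ((hpt p).1 hp) hm ?_
    rw [hrhs]
    exact ht

end Run7.h929.Old.Dichotomy
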